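import Pool.Agent.L0h32.UY.Stm2
import Pool.Agent.L0h95.UX.UNA

/-!
# DWU: the machine of the project UX has no choice what to write
-/

set_option autoImplicit false

namespace Pool.Agent.L0h39.UY

open Relation
open Pool.Agent.L0h32.UX Pool.Agent.L0h95.UXU Pool.Agent.L0h32.UY
open Pool.Agent.H630R2.LA (LimAut Sym Cfg Step init initTape WS lrel bitS ix nr Ann keep)

variable {A : Type} [Finite A] {h : ℕ} {rel : A → Fin (2 ^ h) → Fin (2 ^ h) → Bool}
  {p0 : Fin (2 ^ h)} {facc : Fin (2 ^ h) → Bool} {K : ℕ}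
  {W : ℕ → ℕ → Fin (2 ^ h) → Fin (2 ^ h) → ℕ} {N : ℕ} {hQ : Finite {s : St h // Bd h N s}}

/-- At the first visit of a letter the written symbol is determined. -/
theorem first_visit (hM : S_MOV) {w : List A} {c : Cfg (uM h rel p0 facc K W N hQ)}
    (hc : Inv w c) (h1 : 1 ≤ c.pos) (h2 : c.pos ≤ w.length) (h3 : c.pos ∉ c.seen)
    {q : (uM h rel p0 facc K W N hQ : LimAut A).Q} {b : WS A} {d : Bool}
    (hδ : (q, b, d) ∈ (uM h rel p0 facc K W N hQ : LimAut A).δ c.state (c.tape c.pos)) :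
    ∃ (t : ℕ) (ht : t < w.length) (x : Wr), c.pos = t + 1 ∧ WOK h rel p0 w t x ∧
      b = .mark w[t] x.b := by
  have hTr : Tr h rel p0 facc K W c.state.1 (c.tape c.pos) q.1 b d := hδ
  obtain ⟨t, ht, ⟨x, e1, e2, hW, hA, hτ, hS⟩ | ⟨hSOK, hA, hτ, hS⟩⟩ := hc
  · have hlt : t < w.length := by omega
    have hcell : c.tape c.pos = .sym (.raw w[t]) := by
      rw [e2, hτ (t + 1) (by omega), init_sym hlt]
    rw [hcell, e1] at hTr
    refine ⟨t, hlt, x, e2, hW, ?_⟩
    generalize q.1 = s' at hTr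
    cases hTr
    rfl
  · exfalso
    have h4 : c.pos ≤ t + 1 := by
      cases d with
      | true =>
        exact (hM A h rel p0 facc K W w t c.tape ht hA c.state.1 q.1 c.pos (c.pos + 1) b true
          hSOK hTr (fun _ => rfl) (fun hd => absurd hd (by decide))).2.1
      | false =>
        exact (hM A h rel p0 facc K W w t c.tape ht hA c.state.1 q.1 c.pos (c.pos - 1) b false
          hSOK hTr (fun hd => absurd hd (by decide)) (fun _ => by omega)).2.1
    exact h3 ((hS c.pos h1).2 h4)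

theorem t_DWU (hV : S_MV0) (hM : S_MOV) : S_DWU := by
  intro A _ strict h rel p0 facc K W N hQ hK w c c' hc hc' h1 h2 hpos h3 h4 q b d q' b' d' hδ hδ'
  obtain ⟨t, ht, x, e1, hW, e2⟩ := first_visit hM (inv_reach hV hM hK hc) h1 h2 h3 hδ
  obtain ⟨t', ht', x', e1', hW', e2'⟩ := first_visit hM (inv_reach hV hM hK hc')
    (by rw [hpos]; exact h1) (by rw [hpos]; exact h2) h4 hδ'
  have e3 : t' = t := by omega
  subst e3
  rw [e2, e2']
  have e4 : x.b = x'.b := by
    rw [Bool.eq_iff_iff, hW.2.2.2.2, hW'.2.2.2.2]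
  rw [e4]

end Pool.Agent.L0h39.UY
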